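import Pool.Agent.PVD.StmtsM1

/-! MP_e25c73_gt, squad PVD, block M1, row SSA: the limit of the normalised logarithm. -/

set_option autoImplicit false

open MeasureTheory Filter Topology

namespace Pool.Agent.PVD.M.H76

open Pool.Agent.PVD.L Pool.Agent.PVD.M

/-- the normalised logarithm of a multiple -/
theorem sa_smul {n : ℕ} (hn : 0 < n) {e : ℝ} {A : Finset (Fin 4)} {h : Fin 4 → ℝ} {s : ℝ}
    (hs : 0 < s) (hV : 0 < VA n e A h)
    (hom : VA n e A (fun i => s * h i) = s ^ n * VA n e A h) :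
    SA n e A (fun i => s * h i) = SA n e A h + Real.log s := by
  have hn' : (n : ℝ) ≠ 0 := by exact_mod_cast hn.ne'
  have h1 : (0 : ℝ) < (n : ℝ) ^ n := pow_pos (by exact_mod_cast hn) n
  have h2 : (0 : ℝ) < s ^ n := pow_pos hs n
  unfold SA
  rw [hom]
  have h3 : (n : ℝ) ^ n * (s ^ n * VA n e A h) = s ^ n * ((n : ℝ) ^ n * VA n e A h) := by ring
  rw [h3, Real.log_mul h2.ne' (mul_pos h1 hV).ne', Real.log_pow]
  field_simp
  ring

theorem ssa (hSUP : SupStmt) (hSLO : SloStmt) (hHOM : HomStmt) (hRS1 : Rs1Stmt) (hRS2 : Rs2Stmt)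
    (hRS3 : Rs3Stmt) : SsaStmt := by
  intro e he0 he1 A m hA hm ι F N h hN hh
  obtain ⟨hsum, hpos⟩ := hRS3 e he0 he1 A m hA hm
  obtain ⟨R, hR⟩ : ∃ R : ℕ → ℝ, ∀ n, R n =
      (n : ℝ)⁻¹ * ∑ j ∈ Finset.range n, Real.log (fm e m (nd n j)) := ⟨_, fun _ => rfl⟩
  obtain ⟨c, hc⟩ : ∃ c : Fin 4 → ℕ → ℝ, ∀ i n, c i n =
      (n : ℝ)⁻¹ * ∑ j ∈ Finset.range n, cl e i (nd n j) / fm e m (nd n j) :=
    ⟨fun i n => _, fun _ _ => rfl⟩
  have hRt : Tendsto (fun x => R (N x)) F (𝓝 (- Ph e m)) := by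
    have h1 := hRS2 e he0 he1 A m hA hm
    have h2 : (fun n : ℕ => (n : ℝ)⁻¹ * ∑ j ∈ Finset.range n, Real.log (fm e m (nd n j))) = R := by
      funext n
      rw [hR]
    rw [h2] at h1
    exact h1.comp hN
  have hct : ∀ i ∈ A, Tendsto (fun x => c i (N x)) F (𝓝 (Hm e m i)) := by
    intro i hi
    have h1 := hRS1 e he0 he1 A m hA hm i hi
    have h2 : (fun n : ℕ => (n : ℝ)⁻¹ * ∑ j ∈ Finset.range n,
        cl e i (nd n j) / fm e m (nd n j)) = c i := by
      funext n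
      rw [hc]
    rw [h2] at h1
    exact h1.comp hN
  have hN0 : ∀ᶠ x in F, 0 < N x := hN.eventually (eventually_gt_atTop 0)
  -- the lower bound
  have key : ∀ δ ε : ℝ, 0 < δ → δ < 1 → 0 < ε → (∀ i ∈ A, 2 * δ ≤ ε * Hm e m i) →
      ∀ᶠ x in F, 0 < VA (N x) e A (h x) ∧
        1 - δ - Real.log 2 / N x - R (N x) - Real.log (1 + ε) ≤ SA (N x) e A (h x) := by
    intro δ ε hδ0 hδ1 hε hδε
    obtain ⟨N0, hN0', hN1⟩ := hSLO e he0 he1 A m hA hm δ hδ0 hδ1
    have h1 : ∀ᶠ x in F, ∀ i ∈ A, c i (N x) + δ ≤ (1 + ε) * h x i := by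
      rw [Filter.eventually_all_finset]
      intro i hi
      have h2 : Tendsto (fun x => c i (N x) + δ) F (𝓝 (Hm e m i + δ)) :=
        (hct i hi).add tendsto_const_nhds
      have h3 : Tendsto (fun x => (1 + ε) * h x i) F (𝓝 ((1 + ε) * Hm e m i)) :=
        (hh i hi).const_mul _
      have h4 : Hm e m i + δ < (1 + ε) * Hm e m i := by
        have := hδε i hi
        linarith
      filter_upwards [h2.eventually_lt h3 h4] with x hx
      exact hx.le
    filter_upwards [h1, hN.eventually (eventually_ge_atTop N0), hN0] with x hx hNx hx0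
    obtain ⟨h2, h3⟩ := hN1 (N x) hNx (fun i => (1 + ε) * h x i) (fun i hi => by
      have := hx i hi
      rw [hc] at this
      exact this)
    have h1e : 0 < 1 + ε := by linarith
    have hom := (hHOM (N x) e he0 he1 A hA (h x)).1 (1 + ε) h1e
    have hV : 0 < VA (N x) e A (h x) := by
      rw [hom] at h2
      exact (pos_iff_pos_of_mul_pos h2).1 (pow_pos h1e _)
    refine ⟨hV, ?_⟩
    rw [sa_smul hx0 h1e hV hom, ← hR] at h3
    linarith
  -- a choice of `δ`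
  have choice : ∀ ε η : ℝ, 0 < ε → 0 < η → ∃ δ : ℝ, 0 < δ ∧ δ < 1 ∧ δ < η ∧
      ∀ i ∈ A, 2 * δ ≤ ε * Hm e m i := by
    intro ε η hε hη
    have h1 : ∀ᶠ δ : ℝ in 𝓝[>] 0, ∀ i ∈ A, 2 * δ ≤ ε * Hm e m i := by
      rw [Filter.eventually_all_finset]
      intro i hi
      have h2 : Tendsto (fun δ : ℝ => 2 * δ) (𝓝[>] 0) (𝓝 (2 * 0)) :=
        (tendsto_id.const_mul 2).mono_left nhdsWithin_le_nhds
      have h3 : 2 * (0 : ℝ) < ε * Hm e m i := by
        rw [mul_zero]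
        exact mul_pos hε (hpos i hi)
      filter_upwards [h2.eventually_lt_const h3] with δ hδ
      exact hδ.le
    have h2 : ∀ᶠ δ : ℝ in 𝓝[>] 0, δ < 1 :=
      (eventually_lt_nhds (zero_lt_one)).filter_mono nhdsWithin_le_nhds
    have h3 : ∀ᶠ δ : ℝ in 𝓝[>] 0, δ < η :=
      (eventually_lt_nhds hη).filter_mono nhdsWithin_le_nhds
    have h4 : ∀ᶠ δ : ℝ in 𝓝[>] 0, 0 < δ := eventually_mem_nhdsWithin
    obtain ⟨δ, hδ1, hδ2, hδ3, hδ4⟩ := (h1.and (h2.and (h3.and h4))).exists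
    exact ⟨δ, hδ4, hδ2, hδ3, hδ1⟩
  have hVpos : ∀ᶠ x in F, 0 < VA (N x) e A (h x) := by
    obtain ⟨δ, h1, h2, -, h4⟩ := choice 1 1 one_pos one_pos
    filter_upwards [key δ 1 h1 h2 one_pos h4] with x hx
    exact hx.1
  refine ⟨hVpos, ?_⟩
  rw [tendsto_order]
  constructor
  · intro a ha
    obtain ⟨η, hη⟩ : ∃ η : ℝ, η = 1 + Ph e m - a := ⟨_, rfl⟩
    have hη0 : 0 < η := by rw [hη]; linarith
    obtain ⟨δ, h1, h2, h3, h4⟩ := choice (η / 4) (η / 4) (by linarith) (by linarith)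
    have h5 : Real.log (1 + η / 4) ≤ η / 4 := by
      have := Real.log_le_sub_one_of_pos (show 0 < 1 + η / 4 by linarith)
      linarith
    have h6 : Tendsto (fun x => 1 - δ - Real.log 2 / N x - R (N x) - Real.log (1 + η / 4)) F
        (𝓝 (1 - δ - 0 - (- Ph e m) - Real.log (1 + η / 4))) := by
      have h7 : Tendsto (fun x => Real.log 2 / (N x : ℝ)) F (𝓝 0) :=
        Tendsto.div_atTop tendsto_const_nhds (tendsto_natCast_atTop_atTop.comp hN)
      exact (((tendsto_const_nhds.sub h7).sub hRt).sub tendsto_const_nhds)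
    have h7 : a < 1 - δ - 0 - (- Ph e m) - Real.log (1 + η / 4) := by linarith
    filter_upwards [key δ (η / 4) h1 h2 (by linarith) h4, h6.eventually_const_lt h7] with x hx hx'
    linarith [hx.2]
  · intro b hb
    have h6 : Tendsto (fun x => ∑ i ∈ A, m i * h x i - R (N x)) F
        (𝓝 (∑ i ∈ A, m i * Hm e m i - (- Ph e m))) :=
      (tendsto_finsetSum A fun i hi => (hh i hi).const_mul (m i)).sub hRt
    rw [hsum] at h6
    have h7 : 1 - (- Ph e m) < b := by linarith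
    filter_upwards [hVpos, hN0, h6.eventually_lt_const h7] with x hV hn hx
    have h8 := hSUP e he0 he1 A m hA hm (N x) (h x) hn hV
    rw [← hR] at h8
    linarith

end Pool.Agent.PVD.M.H76
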