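import Pool.Agent.Helper52_PVD.NVAR
import Pool.Agent.Helper92_PVD.CHB
import Pool.Agent.Helper69_PVD.NUba
import Pool.Agent.Helper47_PVD.Lba
import Pool.Agent.Helper56_PVD.RSG
import Pool.Agent.Helper69_PVD.NRlg
import Pool.Agent.Helper90_PVD.BLF
import Pool.Agent.Helper18_PVD.RS
import Pool.Agent.Helper13_PVD.RS3
import Pool.Agent.Helper20_PVD.SUP
import Pool.Agent.Helper53_PVD.SLO
import Pool.Agent.Helper13_PVD.SSC
import Pool.Agent.Helper10_PVD.ONE
import Pool.Agent.Helper15_PVD.HOM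
import Pool.Agent.Helper76_PVD.SSA

/-!
# Block M1 of the squad PVD: assembly of `SscStmt` from the rows
-/

namespace Pool.Agent.PVD.M.H76

/-- The assembly of block M1 (the dictionary DIC is the only hypothesis). -/
theorem ssc_of (hDIC : DicStmt) : SscStmt := by
  have hONE : OneStmt := H10.n_one
  have hHOM : HomStmt := H15.hom
  have hEXI : ExiStmt := H52.exi hONE
  have hVAR : VarStmt := H52.var hONE
  have hCHB : ChbStmt := H92.chb hEXI hVAR
  have hUBA : UbaStmt := H69.uba hEXI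
  have hLBA : LbaStmt := H47.lba hEXI hCHB hUBA
  have hRSG : RsgStmt := H56.rsg
  have hRLG : RlgStmt := H69.rlg
  have hBLF : BlfStmt := H90.blf
  have hRS1 : Rs1Stmt := H18.rs1 hRSG hBLF
  have hRS2 : Rs2Stmt := H18.rs2 hRSG hRLG hBLF
  have hRS3 : Rs3Stmt := H13.rs3 hBLF
  have hSUP : SupStmt := H20.sup hUBA hBLF
  have hSLO : SloStmt := H53.slo hLBA hHOM hBLF
  have hSSA : SsaStmt := ssa hSUP hSLO hHOM hRS1 hRS2 hRS3
  exact H13.ssc hDIC hSSA

end Pool.Agent.PVD.M.H76
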